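import Mathlib

open Cardinal

namespace Pool.Agent.Lib.MP_43e680_lc

universe u v

section defs

variable {F : Type u} {E : Type v} [Field F] [AddCommGroup E] [Module F E]

/-- An almost disjoint family of subspaces of `E`: all its members are infinite-dimensional, and
any two distinct members intersect in a finite-dimensional subspace. -/
def IsADFamily (𝒜 : Set (Submodule F E)) : Prop :=
  (∀ X ∈ 𝒜, ¬ FiniteDimensional F X) ∧
    ∀ X ∈ 𝒜, ∀ Y ∈ 𝒜, X ≠ Y → FiniteDimensional F ↥(X ⊓ Y)

/-- A mad family of subspaces: an almost disjoint family that is not properly contained in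
another almost disjoint family. -/
def IsMadFamily (𝒜 : Set (Submodule F E)) : Prop :=
  IsADFamily 𝒜 ∧ ∀ ℬ : Set (Submodule F E), IsADFamily ℬ → 𝒜 ⊆ ℬ → ℬ = 𝒜

end defs

/-- `𝔞_{vec,F}`: the least cardinality of an infinite mad family of subspaces of the vector space
`ℕ →₀ F` of countably infinite dimension. -/
noncomputable def aVec (F : Type) [Field F] : Cardinal.{0} :=
  sInf {κ | ∃ 𝒜 : Set (Submodule F (ℕ →₀ F)), 𝒜.Infinite ∧ IsMadFamily 𝒜 ∧ #𝒜 = κ}

/-- `non(ℳ)`: the least cardinality of a nonmeager set of reals. -/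
noncomputable def nonM : Cardinal.{0} :=
  sInf {κ | ∃ S : Set ℝ, ¬ IsMeagre S ∧ #S = κ}

end Pool.Agent.Lib.MP_43e680_lc
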