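import Pool.Agent.Lib.MP_43e680_lc.Defs

open Cardinal Set

namespace Pool.Agent.Lib.MP_43e680_lc

/-! ### Digits -/

/-- Each binary cylinder contains a smaller cylinder mapped into a given dense open set. -/
theorem exists_cylinder {U : Set ℝ} (hU : IsOpen U) (hd : Dense U) (x : ℕ → Fin 2) (n : ℕ) :
    ∃ w : ℕ → Fin 2, (∀ i < n, w i = x i) ∧
      ∃ m ≥ n, ∀ z : ℕ → Fin 2, (∀ i < m, z i = w i) → Real.ofDigits z ∈ U := by
  set a : ℝ := ∑ i ∈ Finset.range n, Real.ofDigitsTerm x i with ha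
  have h2 : (0:ℝ) < ((2:ℕ):ℝ) ^ n := by positivity
  have h2' : (0:ℝ) < (((2:ℕ):ℝ) ^ n)⁻¹ := by positivity
  obtain ⟨p, hpI, hpU⟩ := hd.inter_open_nonempty (Set.Ioo a (a + (((2:ℕ):ℝ) ^ n)⁻¹)) isOpen_Ioo
    (Set.nonempty_Ioo.2 (by linarith))
  -- p = a + 2^{-n} t
  have ht : (((2:ℕ):ℝ) ^ n) * (p - a) ∈ Set.Icc (0:ℝ) 1 := by
    constructor
    · exact mul_nonneg h2.le (by linarith [hpI.1])
    · have h3 : p - a ≤ (((2:ℕ):ℝ) ^ n)⁻¹ := by linarith [hpI.2]
      calc (((2:ℕ):ℝ) ^ n) * (p - a) ≤ (((2:ℕ):ℝ) ^ n) * (((2:ℕ):ℝ) ^ n)⁻¹ :=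
            mul_le_mul_of_nonneg_left h3 h2.le
        _ = 1 := mul_inv_cancel₀ h2.ne'
  obtain ⟨t, -, htt⟩ := Real.ofDigits_SurjOn (b := 2) (by norm_num) ht
  set w : ℕ → Fin 2 := fun i => if i < n then x i else t (i - n) with hw
  have hwn : ∀ i < n, w i = x i := fun i hi => by simp [hw, hi]
  have hwp : Real.ofDigits w = p := by
    rw [Real.ofDigits_eq_sum_add_ofDigits w n]
    have h4 : (fun i => w (i + n)) = t := by
      funext i
      simp [hw]
    have h5 : ∑ i ∈ Finset.range n, Real.ofDigitsTerm w i = a :=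
      Finset.sum_congr rfl fun i hi => by
        simp [Real.ofDigitsTerm, hwn i (Finset.mem_range.mp hi)]
    rw [h4, h5, htt, ← mul_assoc, inv_mul_cancel₀ h2.ne']
    ring
  obtain ⟨ε, hε, hball⟩ := Metric.isOpen_iff.1 hU p hpU
  obtain ⟨m, hm⟩ := exists_pow_lt_of_lt_one hε (show ((2:ℕ):ℝ)⁻¹ < 1 by norm_num)
  refine ⟨w, hwn, max m n, le_max_right _ _, fun z hz => hball ?_⟩
  rw [Metric.mem_ball, Real.dist_eq, ← hwp]
  refine lt_of_le_of_lt (Real.abs_ofDigits_sub_ofDigits_le (n := m)
    fun i hi => hz i (lt_of_lt_of_le hi (le_max_left _ _))) ?_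
  rwa [← inv_pow]

/-- For every dense open set `U` of reals and every `k` there is a pattern `y` on a window
`[k, m)` such that every digit sequence following the pattern on the window is mapped into `U`. -/
theorem exists_window {U : Set ℝ} (hU : IsOpen U) (hd : Dense U) (k : ℕ) :
    ∃ m ≥ k, ∃ y : ℕ → Fin 2, ∀ z : ℕ → Fin 2, (∀ i, k ≤ i → i < m → z i = y i) →
      Real.ofDigits z ∈ U := by
  have key : ∀ S : Finset (Fin k → Fin 2), ∃ m ≥ k, ∃ y : ℕ → Fin 2, ∀ z : ℕ → Fin 2,
      (fun i : Fin k => z i) ∈ S → (∀ i, k ≤ i → i < m → z i = y i) →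
      Real.ofDigits z ∈ U := by
    intro S
    induction S using Finset.induction_on with
    | empty => exact ⟨k, le_rfl, fun _ => 0, fun z hz => by simp at hz⟩
    | insert s S _ ih =>
      obtain ⟨m, hm, y, hy⟩ := ih
      obtain ⟨w, hw, m', hm', hw'⟩ := exists_cylinder hU hd
        (fun i => if h : i < k then s ⟨i, h⟩ else y i) m
      refine ⟨m', hm.trans hm', w, fun z hz hzw => ?_⟩
      rcases Finset.mem_insert.1 hz with hz | hz
      · apply hw'
        intro i hi
        by_cases hik : i < k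
        · rw [hw i (lt_of_lt_of_le hik hm)]
          simp only [hik, dif_pos]
          exact congrFun hz ⟨i, hik⟩
        · exact hzw i (not_lt.1 hik) hi
      · apply hy z hz
        intro i hki him
        rw [hzw i hki (lt_of_lt_of_le him hm'), hw i him]
        simp [not_lt.2 hki]
  obtain ⟨m, hm, y, hy⟩ := key Finset.univ
  exact ⟨m, hm, y, fun z hz => hy z (Finset.mem_univ _) hz⟩

/-- A window function for a meagre set of reals: there are a monotone function `e` and patterns
`y k` such that a digit sequence that follows the pattern `y k` on the window `[k, e k)` for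
infinitely many `k` is mapped outside the meagre set. -/
theorem exists_windows {M : Set ℝ} (hM : IsMeagre M) :
    ∃ e : ℕ → ℕ, Monotone e ∧ ∃ y : ℕ → ℕ → Fin 2, ∀ z : ℕ → Fin 2,
      {k : ℕ | ∀ i, k ≤ i → i < e k → z i = y k i}.Infinite → Real.ofDigits z ∉ M := by
  obtain ⟨S, hSo, hSd, hSc, hSM⟩ := mem_residual_iff.1 hM
  obtain ⟨U, hU⟩ : ∃ U : ℕ → Set ℝ, (∀ n, IsOpen (U n)) ∧ (∀ n, Dense (U n)) ∧
      ⋂ n, U n ⊆ Mᶜ := by
    rcases S.eq_empty_or_nonempty with hS | hS
    · refine ⟨fun _ => univ, fun _ => isOpen_univ, fun _ => dense_univ, ?_⟩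
      rw [hS] at hSM
      simpa using hSM
    · obtain ⟨U, hU⟩ := hSc.exists_eq_range hS
      refine ⟨U, fun n => hSo _ (hU ▸ mem_range_self n), fun n => hSd _ (hU ▸ mem_range_self n), ?_⟩
      rw [hU, sInter_range] at hSM
      exact hSM
  obtain ⟨hUo, hUd, hUM⟩ := hU
  set V : ℕ → Set ℝ := fun n => ⋂ i ∈ Finset.range (n+1), U i with hV
  have hVo : ∀ n, IsOpen (V n) := fun n => isOpen_biInter_finset fun i _ => hUo i
  have hVd : ∀ n, Dense (V n) := by
    intro n
    induction n with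
    | zero => simpa [hV] using hUd 0
    | succ n ih =>
      have : V (n+1) = V n ∩ U (n+1) := by
        ext x
        simp only [hV, mem_iInter, Finset.mem_range, mem_inter_iff]
        constructor
        · exact fun h => ⟨fun i hi => h i (by omega), h (n+1) (by omega)⟩
        · rintro ⟨h1, h2⟩ i hi
          rcases Nat.lt_succ_iff_lt_or_eq.1 hi with h | h
          · exact h1 i h
          · exact h ▸ h2
      rw [this]
      exact ih.inter_of_isOpen_right (hUd _) (hUo _)
  choose m hm y hy using fun k => exists_window (hVo k) (hVd k) k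
  set e : ℕ → ℕ := fun k => (Finset.range (k+1)).sup m with he
  have hme : ∀ k, m k ≤ e k := fun k => Finset.le_sup (f := m) (by simp)
  refine ⟨e, ?_, y, ?_⟩
  · intro a b hab
    exact Finset.sup_mono (by simpa using Nat.succ_le_succ hab)
  · intro z hz hzM
    refine hUM ?_ hzM
    rw [mem_iInter]
    intro n
    obtain ⟨k, hk, hnk⟩ := hz.exists_gt n
    have h1 : Real.ofDigits z ∈ V k := hy k z fun i hki hi => hk i hki (lt_of_lt_of_le hi (hme k))
    simp only [hV, mem_iInter, Finset.mem_range] at h1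
    exact h1 n (by omega)

end Pool.Agent.Lib.MP_43e680_lc
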