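import Pool.Agent.Lib.MP_43e680_lc.Proof1

open Cardinal Set

namespace Pool.Agent.Lib.MP_43e680_lc

/-! ### Localizing infinitely often equal families to infinite sets -/

/-- A family of functions such that every function is infinitely often equal to a member. -/
def InfOftenEq (Φ : Set (ℕ → ℕ)) : Prop :=
  ∀ g : ℕ → ℕ, ∃ f ∈ Φ, {n : ℕ | f n = g n}.Infinite

section pick

variable {R : Type}

open Classical in
/-- The first coordinates used before stage `n`. -/
noncomputable def used (T : ℕ → Finset (ℕ × R)) : ℕ → Finset ℕ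
  | 0 => ∅
  | n + 1 => if h : ∃ p ∈ T n, p.1 ∉ used T n then insert h.choose.1 (used T n) else used T n

open Classical in
/-- The pair picked at stage `n`. -/
noncomputable def pick (T : ℕ → Finset (ℕ × R)) (n : ℕ) : Option (ℕ × R) :=
  if h : ∃ p ∈ T n, p.1 ∉ used T n then some h.choose else none

theorem used_subset_succ (T : ℕ → Finset (ℕ × R)) (n : ℕ) : used T n ⊆ used T (n+1) := by
  rw [used]
  split_ifs
  · exact Finset.subset_insert _ _
  · exact subset_rfl

theorem used_mono (T : ℕ → Finset (ℕ × R)) : Monotone (used T) :=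
  monotone_nat_of_le_succ (used_subset_succ T)

theorem card_used_le (T : ℕ → Finset (ℕ × R)) (n : ℕ) : (used T n).card ≤ n := by
  induction n with
  | zero => simp [used]
  | succ n ih =>
    rw [used]
    split_ifs
    · exact (Finset.card_insert_le _ _).trans (by omega)
    · omega

theorem pick_mem {T : ℕ → Finset (ℕ × R)} {n : ℕ} {p : ℕ × R} (h : pick T n = some p) :
    p ∈ T n ∧ p.1 ∉ used T n ∧ p.1 ∈ used T (n+1) := by
  rw [pick] at h
  split_ifs at h with h'
  · obtain rfl := Option.some_injective _ h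
    refine ⟨h'.choose_spec.1, h'.choose_spec.2, ?_⟩
    rw [used, dif_pos h']
    exact Finset.mem_insert_self _ _

theorem pick_inj {T : ℕ → Finset (ℕ × R)} {n m : ℕ} {x : ℕ} {r s : R}
    (h : pick T n = some (x, r)) (h' : pick T m = some (x, s)) : n = m := by
  rcases lt_trichotomy n m with hlt | heq | hlt
  · exact absurd (used_mono T (Nat.succ_le_of_lt hlt) (pick_mem h).2.2) (pick_mem h').2.1
  · exact heq
  · exact absurd (used_mono T (Nat.succ_le_of_lt hlt) (pick_mem h').2.2) (pick_mem h).2.1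

open Classical in
/-- The function assembled from the picked pairs. -/
noncomputable def pickFun [Inhabited R] (T : ℕ → Finset (ℕ × R)) (x : ℕ) : R :=
  if h : ∃ r, ∃ n, pick T n = some (x, r) then h.choose else default

theorem pickFun_eq [Inhabited R] {T : ℕ → Finset (ℕ × R)} {n x : ℕ} {r : R} (h : pick T n = some (x, r)) :
    pickFun T x = r := by
  have h' : ∃ r, ∃ n, pick T n = some (x, r) := ⟨r, n, h⟩
  rw [pickFun, dif_pos h']
  obtain ⟨m, hm⟩ := h'.choose_spec
  obtain rfl := pick_inj h hm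
  rw [h] at hm
  exact (congrArg Prod.snd (Option.some_injective _ hm)).symm

theorem exists_pick {T : ℕ → Finset (ℕ × R)} {n : ℕ}
    (h : n < ((T n).image Prod.fst).card) : ∃ p, pick T n = some p := by
  have h1 : ∃ x ∈ (T n).image Prod.fst, x ∉ used T n :=
    Finset.exists_mem_notMem_of_card_lt_card (lt_of_le_of_lt (card_used_le T n) h)
  obtain ⟨x, hx, hxn⟩ := h1
  obtain ⟨p, hp, rfl⟩ := Finset.mem_image.1 hx
  have h2 : ∃ p ∈ T n, p.1 ∉ used T n := ⟨p, hp, hxn⟩
  exact ⟨_, by rw [pick, dif_pos h2]⟩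

/-- The guess of the function `g` at the first `n+1` points of the infinite set `X`. -/
noncomputable def guess (X : Set ℕ) (g : ℕ → R) (n : ℕ) : Finset (ℕ × R) :=
  letI := Classical.decEq R
  (Finset.range (n+1)).image fun i => (Nat.nth (· ∈ X) i, g (Nat.nth (· ∈ X) i))

theorem mem_guess {X : Set ℕ} (hX : X.Infinite) {g : ℕ → R} {n : ℕ} {p : ℕ × R}
    (h : p ∈ guess X g n) : p.1 ∈ X ∧ p.2 = g p.1 := by
  classical
  rw [guess] at h
  obtain ⟨i, -, rfl⟩ := Finset.mem_image.1 h
  exact ⟨Nat.nth_mem_of_infinite hX i, rfl⟩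

theorem card_guess {X : Set ℕ} (hX : X.Infinite) (g : ℕ → R) (n : ℕ) :
    n < ((guess X g n).image Prod.fst).card := by
  classical
  have : (guess X g n).image Prod.fst = (Finset.range (n+1)).image (Nat.nth (· ∈ X)) := by
    rw [guess]
    ext x
    simp
  rw [this, Finset.card_image_of_injective _ (Nat.nth_injective (p := fun x => x ∈ X) hX)]
  simp

/-- If `T n` is infinitely often the guess of `g` along `X`, then `pickFun T` agrees with `g` at
infinitely many points of `X`. -/
theorem pickFun_infinite [Inhabited R] {T : ℕ → Finset (ℕ × R)} {X : Set ℕ} (hX : X.Infinite) {g : ℕ → R}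
    (h : {n : ℕ | T n = guess X g n}.Infinite) : {x ∈ X | pickFun T x = g x}.Infinite := by
  have h1 : ∀ n ∈ {n : ℕ | T n = guess X g n}, ∃ x, x ∈ X ∧ pickFun T x = g x ∧
      ∃ r, pick T n = some (x, r) := by
    intro n hn
    obtain ⟨p, hp⟩ := exists_pick (T := T) (n := n) (by rw [hn]; exact card_guess hX g n)
    have h2 : p ∈ guess X g n := hn ▸ (pick_mem hp).1
    obtain ⟨h3, h4⟩ := mem_guess hX h2
    exact ⟨p.1, h3, by rw [pickFun_eq (n := n) (r := p.2) hp, h4], p.2, hp⟩
  choose! x hxX hxg r hr using h1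
  refine (h.image (f := x) ?_).mono ?_
  · intro n hn m hm hnm
    refine pick_inj (hr n hn) (s := r m) ?_
    rw [hnm]
    exact hr m hm
  · rintro _ ⟨n, hn, rfl⟩
    exact ⟨hxX n hn, hxg n hn⟩

/-- Localization of infinitely often equal families. -/
theorem exists_localized [Inhabited R] [Countable R] {Φ : Set (ℕ → ℕ)} (hΦ : InfOftenEq Φ) :
    ∃ L : (ℕ → ℕ) → ℕ → R, ∀ g : ℕ → R, ∀ X : Set ℕ, X.Infinite →
      ∃ f ∈ Φ, {x ∈ X | L f x = g x}.Infinite := by
  obtain ⟨dec, hdec⟩ := exists_surjective_nat (Finset (ℕ × R))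
  refine ⟨fun f => pickFun fun n => dec (f n), fun g X hX => ?_⟩
  obtain ⟨f, hf, hfi⟩ := hΦ fun n => (hdec (guess X g n)).choose
  refine ⟨f, hf, pickFun_infinite hX (hfi.mono fun n hn => ?_)⟩
  have hn' : f n = (hdec (guess X g n)).choose := hn
  show dec (f n) = guess X g n
  rw [hn']
  exact (hdec (guess X g n)).choose_spec

end pick

/-! ### Blocks -/

/-- The block boundaries attached to a function `h`. -/
def blk (h : ℕ → ℕ) : ℕ → ℕ
  | 0 => 0
  | j + 1 => max (blk h j + 1) ((Finset.range (blk h j + 1)).sup h)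

theorem blk_strictMono (h : ℕ → ℕ) : StrictMono (blk h) :=
  strictMono_nat_of_lt_succ fun j => by
    rw [blk]
    exact lt_of_lt_of_le (Nat.lt_succ_self _) (le_max_left _ _)

/-- The index of the block containing `i`. -/
def blkIdx (h : ℕ → ℕ) (i : ℕ) : ℕ := Nat.findGreatest (fun j => blk h j ≤ i) i

theorem blkIdx_eq {h : ℕ → ℕ} {i j : ℕ} (h1 : blk h j ≤ i) (h2 : i < blk h (j+1)) :
    blkIdx h i = j := by
  rw [blkIdx, Nat.findGreatest_eq_iff]
  refine ⟨((blk_strictMono h).le_apply).trans h1, fun _ => h1, fun n hn _ => ?_⟩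
  exact not_le.2 (lt_of_lt_of_le h2 ((blk_strictMono h).monotone hn))

theorem exists_block (h : ℕ → ℕ) (i : ℕ) : ∃ j, blk h j ≤ i ∧ i < blk h (j+1) := by
  refine ⟨blkIdx h i, ?_, ?_⟩
  · have : blk h 0 ≤ i := Nat.zero_le _
    exact Nat.findGreatest_spec (P := fun j => blk h j ≤ i) (Nat.zero_le i) this
  · by_contra hc
    rw [not_lt] at hc
    have h1 : blkIdx h i + 1 ≤ i := ((blk_strictMono h).le_apply).trans hc
    have h2 : blkIdx h i + 1 ≤ blkIdx h i := Nat.le_findGreatest h1 hc
    omega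

/-- If `h` is infinitely often equal to `e ∘ e`, then infinitely many blocks of `h` contain the
window starting at the left endpoint of the block. -/
theorem blocks_infinite {h e : ℕ → ℕ} (he : Monotone e)
    (hh : {n : ℕ | h n = e (e n)}.Infinite) : {j : ℕ | e (blk h j) ≤ blk h (j+1)}.Infinite := by
  rw [← Nat.frequently_atTop_iff_infinite]
  intro hc
  rw [Filter.eventually_atTop] at hc
  obtain ⟨J, hJ⟩ := hc
  obtain ⟨k, hk, hJk⟩ := hh.exists_gt (blk h J)
  obtain ⟨j, hj1, hj2⟩ := exists_block h k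
  have hJj : J ≤ j := by
    by_contra hlt
    rw [not_le] at hlt
    have : blk h (j+1) ≤ blk h J := (blk_strictMono h).monotone hlt
    omega
  have h1 := hJ j hJj
  have h2 := hJ (j+1) (by omega)
  simp only [not_le] at h1 h2
  have h3 : h k ≤ blk h (j+1+1) := by
    rw [blk]
    refine le_trans ?_ (le_max_right _ _)
    exact Finset.le_sup (f := h) (by simp; omega)
  have h4 : e (blk h (j+1)) ≤ e (e k) := he (h1.le.trans (he hj1))
  have hk' : h k = e (e k) := hk
  omega

/-- The digit sequence attached to `F` and the blocks of `h`. -/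
noncomputable def digitSeq (F : ℕ → Finset ℕ) (h : ℕ → ℕ) (i : ℕ) : Fin 2 :=
  if i ∈ F (blkIdx h i) then 1 else 0

/-- **Bartoszyński.** An infinitely often equal family `Φ` yields a nonmeagre set of reals of
cardinality at most `|Φ| * |Φ|`. -/
theorem exists_nonmeagre {Φ : Set (ℕ → ℕ)} (hΦ : InfOftenEq Φ) :
    ∃ S : Set ℝ, ¬ IsMeagre S ∧ #S ≤ #Φ * #Φ := by
  obtain ⟨L, hL⟩ := exists_localized (R := Finset ℕ) hΦ
  refine ⟨range fun p : Φ × Φ => Real.ofDigits (digitSeq (L p.1) p.2), ?_, ?_⟩
  · intro hM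
    obtain ⟨e, he, y, hy⟩ := exists_windows hM
    obtain ⟨h, hhΦ, hh⟩ := hΦ fun n => e (e n)
    have hX := blocks_infinite he hh
    set X : Set ℕ := {j : ℕ | e (blk h j) ≤ blk h (j+1)} with hXdef
    obtain ⟨f, hfΦ, hf⟩ := hL
      (fun j => (Finset.range (blk h (j+1))).filter fun i => y (blk h j) i = 1) X hX
    refine hy (digitSeq (L f) h) ?_ ⟨(⟨f, hfΦ⟩, ⟨h, hhΦ⟩), rfl⟩
    refine (hf.image (f := blk h) (blk_strictMono h).injective.injOn).mono ?_
    rintro _ ⟨j, ⟨hjX, hj⟩, rfl⟩
    intro i hi1 hi2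
    have hi3 : i < blk h (j+1) := lt_of_lt_of_le hi2 hjX
    have hj' : L f j = (Finset.range (blk h (j+1))).filter fun i => y (blk h j) i = 1 := hj
    simp only [digitSeq, blkIdx_eq hi1 hi3, hj', Finset.mem_filter, Finset.mem_range, hi3,
      true_and]
    split_ifs with h1
    · exact h1.symm
    · revert h1
      generalize y (blk h j) i = t
      revert t
      decide
  · refine mk_range_le.trans ?_
    rw [mk_prod, lift_id]

end Pool.Agent.Lib.MP_43e680_lc
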