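import Pool.Agent.Lib.MP_43e680_lc.Proof2

open Cardinal Set

namespace Pool.Agent.Lib.MP_43e680_lc

universe u v

variable {F : Type u} {E : Type v} [Field F] [AddCommGroup E] [Module F E]

/-! ### Linear algebra -/

/-- If `A` is infinite-dimensional and `A ⊓ B` is finite-dimensional, then `A` contains an
infinite family that is linearly independent modulo `B`. -/
theorem exists_indep {A B : Submodule F E} (hA : ¬ FiniteDimensional F A)
    (hAB : FiniteDimensional F ↥(A ⊓ B)) (ι : Type) [Countable ι] :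
    ∃ u : ι → E, (∀ i, u i ∈ A) ∧ LinearIndependent F fun i => B.mkQ (u i) := by
  have hW : ¬ FiniteDimensional F (A.map B.mkQ) := by
    intro h
    apply hA
    rw [FiniteDimensional, Module.Finite.iff_fg] at h hAB ⊢
    refine Submodule.fg_of_fg_map_of_fg_inf_ker B.mkQ h ?_
    rwa [Submodule.ker_mkQ]
  let b := Module.Basis.ofVectorSpace F (A.map B.mkQ)
  have hb : Infinite (Module.Basis.ofVectorSpaceIndex F (A.map B.mkQ)) := by
    by_contra hfin
    rw [not_infinite_iff_finite] at hfin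
    exact hW (Module.Finite.of_basis b)
  obtain ⟨e, he⟩ := Countable.exists_injective_nat ι
  let w : ι → A.map B.mkQ := fun i => b (Infinite.natEmbedding _ (e i))
  have hw : LinearIndependent F w :=
    b.linearIndependent.comp (fun i => Infinite.natEmbedding _ (e i))
      ((Infinite.natEmbedding _).injective.comp he)
  have hw' : LinearIndependent F fun i => (w i : E ⧸ B) :=
    hw.map' (A.map B.mkQ).subtype (Submodule.ker_subtype _)
  choose u huA hu using fun i => Submodule.mem_map.1 (w i).2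
  exact ⟨u, huA, by simpa [hu] using hw'⟩

/-- Dimension bound: `dim (B ⊓ (A ⊔ W)) ≤ dim (A ⊓ B) + dim W`. -/
theorem finrank_inf_sup_le (A B W : Submodule F E) [FiniteDimensional F ↥(A ⊓ B)]
    [FiniteDimensional F W] :
    FiniteDimensional F ↥(B ⊓ (A ⊔ W)) ∧
      Module.finrank F ↥(B ⊓ (A ⊔ W)) ≤ Module.finrank F ↥(A ⊓ B) + Module.finrank F W := by
  have h1 : (B ⊓ (A ⊔ W)).map A.mkQ ≤ W.map A.mkQ := by
    refine (Submodule.map_mono inf_le_right).trans ?_
    rw [Submodule.map_sup, Submodule.mkQ_map_self, bot_sup_eq]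
  have h2 : (B ⊓ (A ⊔ W)) ⊓ A ≤ A ⊓ B :=
    le_inf inf_le_right (inf_le_left.trans inf_le_left)
  have hfin1 : FiniteDimensional F ((B ⊓ (A ⊔ W)).map A.mkQ) :=
    Submodule.finiteDimensional_of_le h1
  have hfin2 : FiniteDimensional F ↥((B ⊓ (A ⊔ W)) ⊓ A) :=
    Submodule.finiteDimensional_of_le h2
  have hfin : FiniteDimensional F ↥(B ⊓ (A ⊔ W)) := by
    rw [FiniteDimensional, Module.Finite.iff_fg] at hfin1 hfin2 ⊢
    refine Submodule.fg_of_fg_map_of_fg_inf_ker A.mkQ hfin1 ?_
    rwa [Submodule.ker_mkQ]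
  refine ⟨hfin, ?_⟩
  have h3 := LinearMap.finrank_range_add_finrank_ker (A.mkQ.domRestrict (B ⊓ (A ⊔ W)))
  have h4 : Module.finrank F (LinearMap.range (A.mkQ.domRestrict (B ⊓ (A ⊔ W)))) ≤
      Module.finrank F W := by
    rw [LinearMap.range_domRestrict]
    exact (Submodule.finrank_mono h1).trans (Submodule.finrank_map_le _ _)
  have h5 : Module.finrank F (LinearMap.ker (A.mkQ.domRestrict (B ⊓ (A ⊔ W)))) ≤
      Module.finrank F ↥(A ⊓ B) := by
    rw [LinearMap.ker_domRestrict, Submodule.ker_mkQ,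
      ← Submodule.finrank_map_subtype_eq]
    refine Submodule.finrank_mono (le_trans ?_ h2)
    rw [Submodule.map_comap_subtype]
  omega

/-- The bad set: a linearly independent sequence in `B` meets `A ⊔ W` in few points. -/
theorem bad_finite {A B W : Submodule F E} [FiniteDimensional F ↥(A ⊓ B)]
    [FiniteDimensional F W] {v : ℕ → E} (hvB : ∀ j, v j ∈ B) (hv : LinearIndependent F v) :
    {j : ℕ | v j ∈ A ⊔ W}.Finite ∧
      {j : ℕ | v j ∈ A ⊔ W}.ncard ≤ Module.finrank F ↥(A ⊓ B) + Module.finrank F W := by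
  obtain ⟨hfin, hle⟩ := finrank_inf_sup_le A B W
  set S : Set ℕ := {j : ℕ | v j ∈ A ⊔ W} with hS
  let f : S → ↥(B ⊓ (A ⊔ W)) := fun j => ⟨v j, hvB j, j.2⟩
  have hf : LinearIndependent F f := by
    apply LinearIndependent.of_comp (B ⊓ (A ⊔ W)).subtype
    exact hv.comp (fun j : S => (j : ℕ)) Subtype.val_injective
  have hSfin : Finite S := hf.finite_of_isNoetherian
  refine ⟨Set.toFinite S, ?_⟩
  have : Fintype S := Fintype.ofFinite S
  have := hf.fintype_card_le_finrank
  rw [Set.ncard_eq_toFinset_card', Set.toFinset_card]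
  exact this.trans hle

end Pool.Agent.Lib.MP_43e680_lc
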