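import Pool.Agent.Lib.MP_43e680_lc.Proof3

open Cardinal Set

namespace Pool.Agent.Lib.MP_43e680_lc

universe u v

variable {F : Type u} {E : Type v} [Field F] [AddCommGroup E] [Module F E]

/-! ### The generic subspace -/

/-- The subspace attached to the node `s` of length `n`. -/
def nodeSpace (F : Type u) {E : Type v} [Field F] [AddCommGroup E] [Module F E]
    (u : ℕ → E) (v : ℕ × ℕ → E) (n : ℕ) (s : Fin n → ℕ) : Submodule F E :=
  Submodule.span F (Set.range fun i : Fin n => u i + v (i, s i)) ⊔ Submodule.span F {u n}

instance nodeSpace_fin (u : ℕ → E) (v : ℕ × ℕ → E) (n : ℕ) (s : Fin n → ℕ) :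
    FiniteDimensional F (nodeSpace F u v n s) := by
  have h1 : FiniteDimensional F (Submodule.span F (Set.range fun i : Fin n => u i + v (i, s i))) :=
    FiniteDimensional.span_of_finite F (Set.finite_range _)
  have h2 : FiniteDimensional F (Submodule.span F {u n}) :=
    FiniteDimensional.span_of_finite F (Set.finite_singleton _)
  rw [nodeSpace]
  infer_instance

theorem finrank_nodeSpace_le (u : ℕ → E) (v : ℕ × ℕ → E) (n : ℕ) (s : Fin n → ℕ) :
    Module.finrank F (nodeSpace F u v n s) ≤ n + 1 := by
  have h1 : FiniteDimensional F (Submodule.span F (Set.range fun i : Fin n => u i + v (i, s i))) :=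
    FiniteDimensional.span_of_finite F (Set.finite_range _)
  have h2 : FiniteDimensional F (Submodule.span F {u n}) :=
    FiniteDimensional.span_of_finite F (Set.finite_singleton _)
  have h3 : Module.finrank F (Submodule.span F (Set.range fun i : Fin n => u i + v (i, s i))) ≤
      n :=
    (finrank_range_le_card (R := F) (fun i : Fin n => u i + v (i, s i))).trans (by simp)
  have h4 : Module.finrank F (Submodule.span F {u n}) ≤ 1 := by
    simpa using finrank_span_le_card (R := F) ({u n} : Set E)
  have h5 := Submodule.finrank_add_le_finrank_add_finrank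
    (Submodule.span F (Set.range fun i : Fin n => u i + v (i, s i))) (Submodule.span F {u n})
  rw [nodeSpace]
  omega

/-- A subspace spanned by `x n = u n + v (n, g n)` meets `A` in a finite-dimensional space if
`v (n, g n)` eventually avoids `A` plus the node space. -/
theorem finiteDimensional_inf {A : Submodule F E} {u : ℕ → E} {v : ℕ × ℕ → E} {g : ℕ → ℕ}
    {N : ℕ} (h : ∀ n ≥ N, v (n, g n) ∉ A ⊔ nodeSpace F u v n fun i => g i) :
    FiniteDimensional F
      ↥(Submodule.span F (Set.range fun n => u n + v (n, g n)) ⊓ A) := by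
  set x : ℕ → E := fun n => u n + v (n, g n) with hx
  set S : ℕ → Submodule F E := fun n => Submodule.span F (x '' Set.Iio n) with hS
  have hSsucc : ∀ n, S (n+1) = Submodule.span F {x n} ⊔ S n := by
    intro n
    have : Set.Iio (n+1) = insert n (Set.Iio n) := by
      ext i
      simp only [mem_Iio, mem_insert_iff]
      omega
    simp only [hS]
    rw [this, Set.image_insert_eq, Submodule.span_insert]
  have hSmono : Monotone S := monotone_nat_of_le_succ fun n => by
    rw [hSsucc]
    exact le_sup_right
  have hXS : ∀ y ∈ Submodule.span F (Set.range x), ∃ n, y ∈ S n := by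
    intro y hy
    have h1 : Submodule.span F (Set.range x) ≤ ⨆ n, S n := by
      rw [Submodule.span_le]
      rintro _ ⟨n, rfl⟩
      have h2 : x n ∈ S (n+1) := Submodule.subset_span ⟨n, by simp, rfl⟩
      exact (le_iSup S (n+1)) h2
    exact (Submodule.mem_iSup_of_directed S hSmono.directed_le).1 (h1 hy)
  have hnode : ∀ n, nodeSpace F u v n (fun i => g i) = S n ⊔ Submodule.span F {u n} := by
    intro n
    simp only [nodeSpace, hS]
    congr 2
    ext y
    simp only [mem_range, mem_image, mem_Iio]
    constructor
    · rintro ⟨i, rfl⟩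
      exact ⟨i, i.2, rfl⟩
    · rintro ⟨i, hi, rfl⟩
      exact ⟨⟨i, hi⟩, rfl⟩
  have hle : Submodule.span F (Set.range x) ⊓ A ≤ S N := by
    rintro y ⟨hy, hyA⟩
    obtain ⟨n, hn⟩ := hXS y hy
    induction n with
    | zero => exact hSmono (Nat.zero_le N) hn
    | succ n ih =>
      rcases Nat.lt_or_ge n N with hnN | hnN
      · exact hSmono (Nat.succ_le_of_lt hnN) hn
      · rw [hSsucc] at hn
        obtain ⟨a, ha, w, hw, haw⟩ := Submodule.mem_sup.1 hn
        obtain ⟨c, rfl⟩ := Submodule.mem_span_singleton.1 ha
        by_cases hc : c = 0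
        · apply ih
          rw [← haw, hc, zero_smul, zero_add]
          exact hw
        · exfalso
          apply h n hnN
          rw [hnode]
          have h1 : v (n, g n) = c⁻¹ • y - c⁻¹ • w - u n := by
            have : y = c • (u n + v (n, g n)) + w := haw.symm
            rw [this, smul_add, smul_smul, inv_mul_cancel₀ hc, one_smul]
            abel
          rw [h1]
          refine Submodule.sub_mem _ (Submodule.sub_mem _ ?_ ?_) ?_
          · exact Submodule.mem_sup_left (A.smul_mem _ hyA)
          · exact Submodule.mem_sup_right (Submodule.mem_sup_left (Submodule.smul_mem _ _ hw))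
          · exact Submodule.mem_sup_right (Submodule.mem_sup_right
              (Submodule.mem_span_singleton_self _))
  have : FiniteDimensional F (S N) := FiniteDimensional.span_of_finite F
    ((Set.finite_Iio N).image x)
  exact Submodule.finiteDimensional_of_le hle

/-- If `x` is linearly independent modulo `A`, its span meets `A` trivially. -/
theorem inf_eq_bot {A : Submodule F E} {x : ℕ → E}
    (h : LinearIndependent F fun n => A.mkQ (x n)) :
    Submodule.span F (Set.range x) ⊓ A = ⊥ := by
  have := Submodule.range_ker_disjoint (f := A.mkQ) (v := x) h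
  rw [Submodule.ker_mkQ] at this
  exact this.eq_bot

theorem not_finiteDimensional_span {x : ℕ → E} (h : LinearIndependent F x) :
    ¬ FiniteDimensional F (Submodule.span F (Set.range x)) := by
  intro hfin
  have h1 := (Module.Basis.span h)
  have : Finite ℕ := Module.Finite.finite_basis h1
  exact not_finite ℕ

/-- No function avoids the bad sets of all members of a mad family. -/
theorem no_avoid {𝒜 : Set (Submodule F E)} (h𝒜 : IsMadFamily 𝒜) {A₀ A₁ : Submodule F E}
    {u : ℕ → E} (hu : ∀ n, u n ∈ A₀) (hui : LinearIndependent F fun n => A₁.mkQ (u n))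
    {v : ℕ × ℕ → E} (hv : ∀ p, v p ∈ A₁) (hvi : LinearIndependent F fun p => A₀.mkQ (v p))
    (g : ℕ → ℕ)
    (hg : ∀ A ∈ 𝒜, A ≠ A₀ → A ≠ A₁ →
      ∀ᶠ n in Filter.atTop, v (n, g n) ∉ A ⊔ nodeSpace F u v n fun i => g i) : False := by
  set x : ℕ → E := fun n => u n + v (n, g n) with hx
  set X : Submodule F E := Submodule.span F (Set.range x) with hX
  have hx1 : LinearIndependent F fun n => A₁.mkQ (x n) := by
    have : (fun n => A₁.mkQ (x n)) = fun n => A₁.mkQ (u n) := by
      funext n
      simp only [hx, map_add]
      rw [(Submodule.Quotient.mk_eq_zero A₁).2 (hv (n, g n)) |> fun h => show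
        A₁.mkQ (v (n, g n)) = 0 from h, add_zero]
    rw [this]
    exact hui
  have hx0 : LinearIndependent F fun n => A₀.mkQ (x n) := by
    have : (fun n => A₀.mkQ (x n)) = fun n => A₀.mkQ (v (n, g n)) := by
      funext n
      simp only [hx, map_add]
      rw [(Submodule.Quotient.mk_eq_zero A₀).2 (hu n) |> fun h => show
        A₀.mkQ (u n) = 0 from h, zero_add]
    rw [this]
    exact hvi.comp (fun n => (n, g n)) fun a b hab => (Prod.mk.inj hab).1
  have hxi : LinearIndependent F x := LinearIndependent.of_comp A₁.mkQ hx1
  have hXinf : ¬ FiniteDimensional F X := not_finiteDimensional_span hxi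
  have hXA : ∀ A ∈ 𝒜, FiniteDimensional F ↥(X ⊓ A) := by
    intro A hA
    by_cases h0 : A = A₀
    · subst h0
      rw [inf_eq_bot hx0]
      infer_instance
    by_cases h1 : A = A₁
    · subst h1
      rw [inf_eq_bot hx1]
      infer_instance
    obtain ⟨N, hN⟩ := Filter.eventually_atTop.1 (hg A hA h0 h1)
    exact finiteDimensional_inf hN
  have hXmem : X ∈ 𝒜 := by
    have hins : IsADFamily (insert X 𝒜) := by
      refine ⟨?_, ?_⟩
      · rintro Y (rfl | hY)
        · exact hXinf
        · exact h𝒜.1.1 Y hY
      · rintro Y (rfl | hY) Z (rfl | hZ) hYZ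
        · exact absurd rfl hYZ
        · exact hXA Z hZ
        · rw [inf_comm]
          exact hXA Y hY
        · exact h𝒜.1.2 Y hY Z hZ hYZ
    have := h𝒜.2 _ hins (Set.subset_insert _ _)
    rw [← this]
    exact Set.mem_insert _ _
  have := hXA X hXmem
  rw [inf_idem] at this
  exact hXinf this

end Pool.Agent.Lib.MP_43e680_lc
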