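import Pool.Agent.Lib.MP_43e680_lc.Proof4

open Cardinal Set

namespace Pool.Agent.Lib.MP_43e680_lc

universe u v

/-! ### From slaloms on a tree to infinitely often equal families -/

/-- The function defined recursively from a function on the tree of finite sequences. -/
def build (G : (n : ℕ) → (Fin n → ℕ) → ℕ) : ℕ → ℕ
  | n => G n fun i => build G i.1
termination_by n => n
decreasing_by exact i.2

theorem build_eq (G : (n : ℕ) → (Fin n → ℕ) → ℕ) (n : ℕ) :
    build G n = G n fun i => build G i := by rw [build]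

/-- The index set for coding slaloms on the tree. -/
abbrev Idx : Type := Σ n : ℕ, (Fin n → ℕ) × Fin (2 * n + 1)

/-- The coding of one slalom as a function on `Idx`. -/
def codeSlalom (P : (n : ℕ) → (Fin n → ℕ) → List ℕ) (d : Idx) : ℕ :=
  (Denumerable.ofNat (List ℕ) ((P d.1 d.2.1).getD d.2.2 0)).getD d.2.2 0

theorem exists_infOftenEq {ι : Type v} (P : ι → (n : ℕ) → (Fin n → ℕ) → Finset ℕ)
    (hP : ∀ a n s, (P a n s).card ≤ 2 * n + 1)
    (h : ∀ g : ℕ → ℕ, ∃ a : ι, {n : ℕ | g n ∈ P a n fun i => g i}.Infinite) :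
    ∃ Φ : Set (ℕ → ℕ), InfOftenEq Φ ∧ lift.{v} #Φ ≤ #ι := by
  have : Encodable Idx := Encodable.ofCountable Idx
  let f : ι → ℕ → ℕ := fun a m =>
    match (Encodable.decode m : Option Idx) with
    | some d => codeSlalom (fun n s => (P a n s).toList) d
    | none => 0
  have hf : ∀ a (d : Idx), f a (Encodable.encode d) =
      codeSlalom (fun n s => (P a n s).toList) d := by
    intro a d
    simp only [f, Encodable.encodek]
  refine ⟨range f, ?_, ?_⟩
  · intro T
    set G : (n : ℕ) → (Fin n → ℕ) → ℕ := fun n s =>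
      Encodable.encode (List.ofFn fun k : Fin (2 * n + 1) =>
        T (Encodable.encode (⟨n, s, k⟩ : Idx))) with hG
    obtain ⟨a, ha⟩ := h (build G)
    refine ⟨f a, mem_range_self a, ?_⟩
    have key : ∀ n ∈ {n : ℕ | build G n ∈ P a n fun i => build G i},
        ∃ k : Fin (2 * n + 1),
          f a (Encodable.encode (⟨n, fun i => build G i, k⟩ : Idx)) =
            T (Encodable.encode (⟨n, fun i => build G i, k⟩ : Idx)) := by
      intro n hn
      have hn' : build G n ∈ (P a n fun i => build G i).toList := Finset.mem_toList.2 hn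
      obtain ⟨k, hk, hkn⟩ := List.mem_iff_getElem.1 hn'
      have hk' : k < 2 * n + 1 := by
        refine lt_of_lt_of_le hk ?_
        rw [Finset.length_toList]
        exact hP a n _
      refine ⟨⟨k, hk'⟩, ?_⟩
      rw [hf, codeSlalom]
      simp only
      rw [List.getD_eq_getElem _ _ hk, hkn, build_eq, hG]
      simp only
      rw [Denumerable.ofNat_encode, List.getD_eq_getElem _ _ (by simpa using hk'),
        List.getElem_ofFn]
    choose! k hk using key
    refine (ha.image (f := fun n => Encodable.encode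
      (⟨n, fun i => build G i, k n⟩ : Idx)) ?_).mono ?_
    · intro n _ m _ hnm
      have := Encodable.encode_injective hnm
      exact congrArg Sigma.fst this
    · rintro _ ⟨n, hn, rfl⟩
      exact hk n hn
  · simpa using mk_range_le_lift (f := f)

theorem InfOftenEq.infinite {Φ : Set (ℕ → ℕ)} (hΦ : InfOftenEq Φ) : Φ.Infinite := by
  intro hfin
  obtain ⟨f, hf, hi⟩ := hΦ fun n => hfin.toFinset.sup (fun f => f n) + 1
  obtain ⟨n, hn⟩ := hi.nonempty
  have h1 : f n ≤ hfin.toFinset.sup (fun f => f n) :=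
    Finset.le_sup (f := fun f : ℕ → ℕ => f n) (hfin.mem_toFinset.2 hf)
  have h2 : f n = hfin.toFinset.sup (fun f => f n) + 1 := hn
  omega

/-! ### The theorem -/

variable {F : Type u} {E : Type v} [Field F] [AddCommGroup E] [Module F E]

/-- Every mad family of subspaces with at least two members has cardinality at least `non(ℳ)`. -/
theorem lift_nonM_le {𝒜 : Set (Submodule F E)} (h𝒜 : IsMadFamily 𝒜) (h2 : 𝒜.Nontrivial) :
    lift.{v} nonM ≤ #𝒜 := by
  classical
  obtain ⟨A₀, hA₀, A₁, hA₁, hne⟩ := h2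
  obtain ⟨u, hu, hui⟩ := exists_indep (h𝒜.1.1 A₀ hA₀) (h𝒜.1.2 A₀ hA₀ A₁ hA₁ hne) ℕ
  obtain ⟨v, hv, hvi⟩ := exists_indep (h𝒜.1.1 A₁ hA₁) (h𝒜.1.2 A₁ hA₁ A₀ hA₀ hne.symm) (ℕ × ℕ)
  have hvi' : LinearIndependent F v := LinearIndependent.of_comp A₀.mkQ hvi
  have hvn : ∀ n, LinearIndependent F fun j => v (n, j) := fun n =>
    hvi'.comp (fun j => (n, j)) fun a b hab => (Prod.mk.inj hab).2
  set ι : Type v := {A : Submodule F E // A ∈ 𝒜 ∧ A ≠ A₀ ∧ A ≠ A₁} with hι
  have hfinA : ∀ A : ι, FiniteDimensional F ↥(A.1 ⊓ A₁) := fun A =>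
    h𝒜.1.2 A.1 A.2.1 A₁ hA₁ A.2.2.2
  have hbad : ∀ (A : ι) (n : ℕ) (s : Fin n → ℕ),
      {j : ℕ | v (n, j) ∈ A.1 ⊔ nodeSpace F u v n s}.Finite ∧
      {j : ℕ | v (n, j) ∈ A.1 ⊔ nodeSpace F u v n s}.ncard ≤
        Module.finrank F ↥(A.1 ⊓ A₁) + Module.finrank F (nodeSpace F u v n s) := by
    intro A n s
    have := hfinA A
    exact bad_finite (fun j => hv (n, j)) (hvn n)
  let P : ι → (n : ℕ) → (Fin n → ℕ) → Finset ℕ := fun A n s =>
    if Module.finrank F ↥(A.1 ⊓ A₁) ≤ n then (hbad A n s).1.toFinset else ∅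
  have hP : ∀ A n s, (P A n s).card ≤ 2 * n + 1 := by
    intro A n s
    simp only [P]
    split_ifs with h
    · have h1 := (hbad A n s).2
      rw [Set.ncard_eq_toFinset_card _ (hbad A n s).1] at h1
      have h3 := finrank_nodeSpace_le (F := F) u v n s
      omega
    · simp
  obtain ⟨Φ, hΦ, hΦc⟩ := exists_infOftenEq P hP (by
    intro g
    by_contra hcon
    push Not at hcon
    refine no_avoid h𝒜 hu hui hv hvi g fun A hA h0 h1 => ?_
    have h3 := hcon ⟨A, hA, h0, h1⟩
    rw [← Nat.cofinite_eq_atTop]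
    have h4 : ∀ᶠ n in Filter.cofinite, Module.finrank F ↥(A ⊓ A₁) ≤ n := by
      rw [Nat.cofinite_eq_atTop]
      exact Filter.eventually_ge_atTop _
    have h5 : ∀ᶠ n in Filter.cofinite, ¬ g n ∈ P ⟨A, hA, h0, h1⟩ n fun i => g i := by
      rw [Filter.eventually_cofinite]
      simpa using h3
    filter_upwards [h4, h5] with n hn4 hn5 hmem
    apply hn5
    simp only [P, hn4, if_true]
    rw [Set.Finite.mem_toFinset]
    exact hmem)
  have hιA : #ι ≤ #𝒜 := mk_le_of_injective (f := fun A : ι => (⟨A.1, A.2.1⟩ : 𝒜))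
    fun A B hAB => Subtype.ext (congrArg (fun C : 𝒜 => C.1) hAB)
  obtain ⟨S, hS, hSc⟩ := exists_nonmeagre hΦ
  have h6 : nonM ≤ #S := csInf_le' ⟨S, hS, rfl⟩
  have h7 : ℵ₀ ≤ #Φ := by
    rw [Cardinal.aleph0_le_mk_iff]
    exact hΦ.infinite.to_subtype
  have h8 : #S ≤ #Φ := hSc.trans (mul_eq_self h7).le
  calc lift.{v} nonM ≤ lift.{v} #Φ := lift_le.2 (h6.trans h8)
    _ ≤ #𝒜 := hΦc.trans hιA

/-! ### Existence of infinite mad families -/

theorem exists_madFamily (F : Type u) [Field F] :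
    ∃ 𝒜 : Set (Submodule F (ℕ →₀ F)), 𝒜.Infinite ∧ IsMadFamily 𝒜 := by
  set s : ℕ → Set ℕ := fun n => {m | (Nat.unpair m).1 = n} with hs
  have hsinf : ∀ n, (s n).Infinite := by
    intro n
    refine (Set.infinite_range_of_injective (f := fun k => Nat.pair n k) ?_).mono ?_
    · intro a b hab
      simpa using hab
    · rintro _ ⟨k, rfl⟩
      simp [hs]
  set D : ℕ → Submodule F (ℕ →₀ F) := fun n => Finsupp.supported F F (s n) with hD
  have hDinf : ∀ n, ¬ FiniteDimensional F (D n) := by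
    intro n hfin
    have hb : Module.Basis (s n) F (D n) := ⟨Finsupp.supportedEquivFinsupp (s n)⟩
    have : Finite (s n) := Module.Finite.finite_basis hb
    exact hsinf n (Set.toFinite _)
  have hDbot : ∀ n m, n ≠ m → D n ⊓ D m = ⊥ := by
    intro n m hnm
    simp only [hD]
    rw [← Finsupp.supported_inter]
    have : s n ∩ s m = ∅ := by
      ext k
      simp only [hs, mem_inter_iff, mem_ofPred_eq, mem_empty_iff_false, iff_false, not_and]
      intro h1 h2
      exact hnm (h1.symm.trans h2)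
    rw [this, Finsupp.supported_empty]
  have hDinj : Function.Injective D := by
    intro n m hnm
    by_contra hne
    have h1 := hDbot n m hne
    rw [← hnm, inf_idem] at h1
    apply hDinf n
    rw [h1]
    infer_instance
  have hAD : IsADFamily (range D) := by
    refine ⟨?_, ?_⟩
    · rintro _ ⟨n, rfl⟩
      exact hDinf n
    · rintro _ ⟨n, rfl⟩ _ ⟨m, rfl⟩ hnm
      rw [hDbot n m fun h => hnm (h ▸ rfl)]
      infer_instance
  obtain ⟨𝒜, hsub, hmax⟩ := zorn_subset_nonempty {𝒜 : Set (Submodule F (ℕ →₀ F)) | IsADFamily 𝒜}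
    (by
      intro c hc hchain hne
      refine ⟨⋃₀ c, ⟨?_, ?_⟩, fun t ht => subset_sUnion_of_mem ht⟩
      · rintro X ⟨t, ht, hX⟩
        exact (hc ht).1 X hX
      · rintro X ⟨t, ht, hX⟩ Y ⟨t', ht', hY⟩ hXY
        rcases hchain.total ht ht' with h | h
        · exact (hc ht').2 X (h hX) Y hY hXY
        · exact (hc ht).2 X hX Y (h hY) hXY) (range D) hAD
  refine ⟨𝒜, (Set.infinite_range_of_injective hDinj).mono hsub, hmax.prop, ?_⟩
  intro ℬ hℬ hsub'
  exact (hmax.eq_of_subset hℬ hsub').symm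

/-- `non(ℳ) ≤ 𝔞_{vec,F}`. -/
theorem nonM_le_aVec (F : Type) [Field F] : nonM ≤ aVec F := by
  refine le_csInf ?_ ?_
  · obtain ⟨𝒜, h1, h2⟩ := exists_madFamily F
    exact ⟨#𝒜, 𝒜, h1, h2, rfl⟩
  · rintro κ ⟨𝒜, h1, h2, rfl⟩
    simpa using lift_nonM_le h2 h1.nontrivial

end Pool.Agent.Lib.MP_43e680_lc
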